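import Pool.Agent.Helper71.PY.Goals

/-!
# Packet PY-UNIM: maximal integral lattices are unimodular
-/

set_option autoImplicit false

namespace Pool.Agent.Helper87.PY

open Pool.Agent.Helper71.PY

section

variable {R K : Type} [CommRing R] [Field K] [Algebra R K] {n : ℕ}

theorem intK_add {a b : K} (ha : IntK R a) (hb : IntK R b) : IntK R (a + b) := by
  obtain ⟨r, rfl⟩ := ha
  obtain ⟨s, rfl⟩ := hb
  exact ⟨r + s, map_add _ _ _⟩

theorem intK_zero : IntK R (0 : K) := ⟨0, map_zero _⟩

theorem intK_smul {a : K} (r : R) (ha : IntK R a) : IntK R (r • a) := by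
  obtain ⟨s, rfl⟩ := ha
  exact ⟨r * s, by rw [map_mul, Algebra.smul_def]⟩

theorem bK_comm (d v w : Fin n → K) : bK d v w = bK d w v := by
  unfold bK
  exact Finset.sum_congr rfl fun i _ => by ring

theorem bK_add (d v w w' : Fin n → K) : bK d v (w + w') = bK d v w + bK d v w' := by
  unfold bK
  rw [← Finset.sum_add_distrib]
  exact Finset.sum_congr rfl fun i _ => by simp [mul_add]

theorem bK_smul (d v w : Fin n → K) (r : R) : bK d v (r • w) = r • bK d v w := by
  unfold bK
  rw [Finset.smul_sum]
  refine Finset.sum_congr rfl fun i _ => ?_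
  simp only [Pi.smul_apply, Algebra.smul_def]
  ring

/-- The dual of `M`. -/
def Md (d : Fin n → K) (M : Submodule R (Fin n → K)) : Submodule R (Fin n → K) where
  carrier := {v | ∀ w ∈ M, IntK R (bK d v w)}
  add_mem' := by
    intro a b ha hb w hw
    have h1 := ha w hw
    have h2 := hb w hw
    rw [bK_comm] at h1 h2 ⊢
    rw [bK_add]
    exact intK_add h1 h2
  zero_mem' := by
    intro w hw
    have : bK d 0 w = 0 := by unfold bK; simp
    rw [this]
    exact intK_zero
  smul_mem' := by
    intro c a ha w hw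
    have h1 := ha w hw
    rw [bK_comm] at h1 ⊢
    rw [bK_smul]
    exact intK_smul c h1

theorem mem_Md {d : Fin n → K} {M : Submodule R (Fin n → K)} {v : Fin n → K} :
    v ∈ Md d M ↔ ∀ w ∈ M, IntK R (bK d v w) := Iff.rfl

/-- The ideal of all `r` with `r v ∈ M`. -/
def Iv (M : Submodule R (Fin n → K)) (v : Fin n → K) : Ideal R :=
  M.comap (LinearMap.toSpanSingleton R (Fin n → K) v)

theorem mem_Iv {M : Submodule R (Fin n → K)} {v : Fin n → K} {r : R} :
    r ∈ Iv M v ↔ r • v ∈ M := by
  unfold Iv
  rw [Submodule.mem_comap, LinearMap.toSpanSingleton_apply]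

/-- The standard lattice. -/
def L0 (R K : Type) [CommRing R] [Field K] [Algebra R K] (n : ℕ) : Submodule R (Fin n → K) :=
  LinearMap.range ((Algebra.linearMap R K).compLeft (Fin n))

theorem mem_L0 {w : Fin n → K} : w ∈ L0 R K n ↔ ∀ i, IntK R (w i) := by
  unfold L0
  rw [LinearMap.mem_range]
  constructor
  · rintro ⟨f, rfl⟩ i
    exact ⟨f i, rfl⟩
  · intro h
    choose f hf using h
    exact ⟨f, funext hf⟩

theorem fg_L0 : (L0 R K n).FG := by
  unfold L0
  rw [LinearMap.range_eq_map]
  exact Module.Finite.fg_top.map _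

end

theorem unim (h1 : G_XY) (h2 : G_UFD) (h3 : G_DD) : G_UNIM := by
  intro R _ _ _ _ x y hreg K _ _ _ n u hu M hM v₀ hv₀
  by_contra hv₀M
  set d : Fin n → K := fun i => algebraMap R K (u i) with hd
  have hinj : Function.Injective (algebraMap R K) := IsFractionRing.injective R K
  -- choose the maximal ideal
  let S : Set (Ideal R) := {I | ∃ v, v ∈ Md d M ∧ v ∉ M ∧ I = Iv M v}
  have hSne : S.Nonempty := ⟨Iv M v₀, v₀, hv₀, hv₀M, rfl⟩
  obtain ⟨P, ⟨v, hvd, hvM, hPv⟩, hmax⟩ :=
    (set_has_maximal_iff_noetherian (R := R) (M := R)).2 inferInstance S hSne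
  have hmem : ∀ r : R, r ∈ P ↔ r • v ∈ M := by
    intro r
    rw [hPv]
    exact mem_Iv
  have hprime : Ideal.IsPrime P := by
    refine ⟨?_, ?_⟩
    · intro htop
      apply hvM
      have : (1 : R) ∈ P := by rw [htop]; trivial
      rw [hmem, one_smul] at this
      exact this
    · intro a b hab
      by_contra hcon
      push Not at hcon
      obtain ⟨ha, hb⟩ := hcon
      rw [hmem] at hb
      have hbd : b • v ∈ Md d M := (Md d M).smul_mem b hvd
      have hle : P ≤ Iv M (b • v) := by
        intro r hr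
        rw [mem_Iv, smul_comm]
        exact M.smul_mem b ((hmem r).1 hr)
      have hnlt := hmax (Iv M (b • v)) ⟨b • v, hbd, hb, rfl⟩
      have heq : P = Iv M (b • v) := by
        by_contra hne
        exact hnlt (lt_of_le_of_ne hle hne)
      apply ha
      rw [heq, mem_Iv, smul_smul]
      exact (hmem _).1 hab
  have hbot : P ≠ ⊥ := by
    obtain ⟨r, hr0, hr⟩ := hM.full v
    intro hb
    have : r ∈ P := (hmem r).2 hr
    rw [hb, Ideal.mem_bot] at this
    exact hr0 this
  have hmx : P ≠ IsLocalRing.maximalIdeal R := by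
    intro hm
    apply hvM
    refine h1 R x y hreg K n d M hM v ?_ ?_
    · rw [← hmem, hm, hreg.max]
      exact Ideal.subset_span (by simp)
    · rw [← hmem, hm, hreg.max]
      exact Ideal.subset_span (by simp)
  obtain ⟨-, hU⟩ := h2 R x y hreg
  obtain ⟨π, hπ, hPπ⟩ := hU P hprime hbot hmx
  have hdiv : ∀ r : R, r • v ∈ M → π ∣ r := by
    intro r hr
    have := (hmem r).2 hr
    rw [hPπ, Ideal.mem_span_singleton] at this
    exact this
  -- elements of the standard lattice in the dual of `M` are in `M`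
  have hLM : ∀ t : Fin n → K, t ∈ L0 R K n → t ∈ Md d M → t ∈ M := by
    intro t ht htd
    refine hM.maxl t htd ?_
    rw [mem_L0] at ht
    choose f hf using ht
    refine ⟨∑ i, u i * f i * f i, ?_⟩
    rw [map_sum]
    unfold bK
    refine Finset.sum_congr rfl fun i _ => ?_
    rw [map_mul, map_mul, hf i, hd]
  have hLdual : ∀ t : Fin n → K, (∀ l ∈ L0 R K n, IntK R (bK d t l)) → t ∈ L0 R K n := by
    intro t ht
    rw [mem_L0]
    intro i
    have h := ht (Pi.single i 1) (by
      rw [mem_L0]
      intro j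
      by_cases hij : j = i
      · subst hij
        exact ⟨1, by simp⟩
      · exact ⟨0, by simp [hij]⟩)
    have hb : bK d t (Pi.single i 1) = d i * t i := by
      unfold bK
      rw [Finset.sum_eq_single i]
      · simp
      · intro j _ hj
        simp [hj]
      · intro hi
        exact absurd (Finset.mem_univ i) hi
    rw [hb] at h
    obtain ⟨r, hr⟩ := h
    obtain ⟨w, hw⟩ := hu i
    refine ⟨(↑w⁻¹ : R) * r, ?_⟩
    rw [map_mul, hr, hd]
    simp only
    rw [← hw, ← mul_assoc, ← map_mul, Units.inv_mul, map_one, one_mul]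
  obtain ⟨s, hs, hsv⟩ := h3 R K π hπ n d (by
      intro i hi
      have hi' : algebraMap R K (u i) = 0 := hi
      rw [map_eq_zero_iff _ hinj] at hi'
      exact (hu i).ne_zero hi') (L0 R K n ⊔ M) (Submodule.FG.sup fg_L0 hM.fg)
    (by
      intro w
      obtain ⟨r, hr0, hr⟩ := hM.full w
      exact ⟨r, hr0, Submodule.mem_sup_right hr⟩) v (by
      intro t ht
      have htL : t ∈ L0 R K n := hLdual t fun l hl => ht l (Submodule.mem_sup_left hl)
      have htd : t ∈ Md d M := fun w hw => ht w (Submodule.mem_sup_right hw)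
      have htM := hLM t htL htd
      rw [bK_comm]
      exact hvd t htM)
  rw [Submodule.mem_sup] at hsv
  obtain ⟨l, hl, m, hm, hlm⟩ := hsv
  have hmd : m ∈ Md d M := fun w hw => hM.int m hm w hw
  have hld : l ∈ Md d M := by
    have : l = s • v - m := by rw [← hlm]; simp
    rw [this]
    exact (Md d M).sub_mem ((Md d M).smul_mem s hvd) hmd
  have hlM := hLM l hl hld
  apply hs
  apply hdiv
  rw [← hlm]
  exact M.add_mem hlM hm

end Pool.Agent.Helper87.PY
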